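import Pool.Agent.P8H7.RS.Trf

/-!
# Project RS, package MAT: from the form with a rational space to matrices
-/

set_option autoImplicit false

namespace Pool.Agent.P8H7.RS

open Module
open Pool.Agent.P8H63.RS
open Pool.Agent.W332.OK (tw)

/-- **MAT** -/
theorem mat : S_MAT := by
  classical
  intro 𝓛 hE n s M hM A hA hr hlt
  obtain ⟨ρ, hρ⟩ : ∃ ρ, (M * A).rank = ρ := ⟨_, rfl⟩
  rw [hρ] at hlt
  obtain ⟨W, hW⟩ : ∃ W : Submodule ℚ (Fin s → ℂ), W = Submodule.span ℚ (Set.range (fun i => A i)) :=
    ⟨_, rfl⟩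
  rw [← hW] at hlt
  have hfin : FiniteDimensional ℚ W := by
    rw [hW]
    exact FiniteDimensional.span_of_finite ℚ (Set.finite_range _)
  obtain ⟨m, hm⟩ : ∃ m, finrank ℚ W = m := ⟨_, rfl⟩
  rw [hm] at hlt
  have hρs : ρ < s := by
    by_contra h
    have h1 : s - ρ = 0 := by omega
    rw [h1, zero_mul] at hlt
    exact absurd hlt (Nat.not_lt_zero _)
  let e : Fin s → Fin n → algebraicClosure ℚ ℂ :=
    fun t i => ⟨A i t, mem_algebraicClosure_iff.mpr (hA i t)⟩
  have hker : LinearMap.ker A.mulVecLin = ⊥ := by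
    have h1 := LinearMap.finrank_range_add_finrank_ker A.mulVecLin
    have h2 : finrank ℂ (LinearMap.range A.mulVecLin) = s := hr
    rw [h2, Module.finrank_fin_fun] at h1
    exact Submodule.finrank_eq_zero.1 (by omega)
  have he : LinearIndependent (algebraicClosure ℚ ℂ) e := by
    rw [Fintype.linearIndependent_iff]
    intro g hg t
    have h1 : A.mulVecLin (fun t => (g t : ℂ)) = 0 := by
      funext i
      have h2 := congrArg (fun z : Fin n → algebraicClosure ℚ ℂ => (z i : ℂ)) hg
      simp only [Finset.sum_apply, Pi.smul_apply, smul_eq_mul, Pi.zero_apply,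
        ZeroMemClass.coe_zero] at h2
      rw [Matrix.mulVecLin_apply, Matrix.mulVec, dotProduct, Pi.zero_apply, ← h2]
      push_cast
      exact Finset.sum_congr rfl fun t _ => mul_comm _ _
    have h2 : (fun t => (g t : ℂ)) = 0 := by
      rw [← Submodule.mem_bot ℂ, ← hker]
      exact h1
    exact Subtype.ext (congrFun h2 t)
  obtain ⟨X, Y, -, -, hXY, -, -⟩ := fact (M * A) hρ
  -- the rational space
  let y : Basis (Fin m) ℚ W := Module.finBasisOfFinrankEq ℚ W hm
  have hQ : ∀ i, A i ∈ W := fun i => by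
    rw [hW]
    exact Submodule.subset_span ⟨i, rfl⟩
  have hWa : ∀ x ∈ W, ∀ t, x t ∈ algebraicClosure ℚ ℂ := by
    intro x hx t
    rw [hW] at hx
    induction hx using Submodule.span_induction with
    | mem x hx =>
      obtain ⟨i, rfl⟩ := hx
      exact mem_algebraicClosure_iff.mpr (hA i t)
    | zero => exact zero_mem _
    | add x z _ _ hx hz => exact add_mem hx hz
    | smul c x _ hx => exact (algebraicClosure ℚ ℂ).smul_mem hx
  let q : Fin m → Fin n → algebraicClosure ℚ ℂ :=
    fun k i => algebraMap ℚ (algebraicClosure ℚ ℂ) (y.repr ⟨A i, hQ i⟩ k)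
  refine hE n s ρ m M hM e he hρs (fun t τ => Y τ t) (fun τ i => X i τ) (fun t i => ?_)
    (Submodule.span (algebraicClosure ℚ ℂ) (Set.range q)) (fun t => ?_) (fun σ => ?_) ?_ hlt
  · have h1 := congrFun (congrFun hXY i) t
    rw [Matrix.mul_apply, Matrix.mul_apply] at h1
    refine h1.trans (Finset.sum_congr rfl fun τ _ => mul_comm _ _)
  · have h1 : e t = ∑ k, (⟨(y k : Fin s → ℂ) t, hWa _ (y k).2 t⟩ : algebraicClosure ℚ ℂ) • q k := by
      funext i
      apply Subtype.ext
      have h2 := congrArg (fun z : W => (z : Fin s → ℂ) t) (y.sum_repr ⟨A i, hQ i⟩)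
      simp only [Submodule.coe_sum, Finset.sum_apply, Submodule.coe_smul, Pi.smul_apply] at h2
      show A i t = _
      rw [← h2, Finset.sum_apply]
      push_cast
      refine Finset.sum_congr rfl fun k _ => ?_
      rw [Pi.smul_apply, smul_eq_mul]
      show _ = (((⟨(y k : Fin s → ℂ) t, hWa _ (y k).2 t⟩ : algebraicClosure ℚ ℂ) *
        algebraMap ℚ (algebraicClosure ℚ ℂ) (y.repr ⟨A i, hQ i⟩ k) : algebraicClosure ℚ ℂ) : ℂ)
      rw [mul_comm, ← Algebra.smul_def]
      rfl
    rw [h1]
    exact Submodule.sum_mem _ fun k _ => Submodule.smul_mem _ _ (Submodule.subset_span ⟨k, rfl⟩)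
  · intro z hz
    have key : ∀ y ∈ Submodule.span (algebraicClosure ℚ ℂ) (Set.range q),
        (fun i => σ (y i)) ∈ Submodule.span (algebraicClosure ℚ ℂ) (Set.range q) := by
      intro y hy
      induction hy using Submodule.span_induction with
      | mem y hy =>
        obtain ⟨k, rfl⟩ := hy
        have h1 : (fun i => σ (q k i)) = q k := by
          funext i
          exact AlgEquiv.commutes σ _
        rw [h1]
        exact Submodule.subset_span ⟨k, rfl⟩
      | zero =>
        simp only [Pi.zero_apply, map_zero]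
        exact Submodule.zero_mem _
      | add y z _ _ hy hz =>
        simp only [Pi.add_apply, map_add]
        exact Submodule.add_mem _ hy hz
      | smul c y _ hy =>
        simp only [Pi.smul_apply, smul_eq_mul, map_mul]
        exact Submodule.smul_mem _ (σ c) hy
    have h1 := key _ hz
    simpa only [AlgEquiv.apply_symm_apply] using h1
  · have h2 := finrank_range_le_card (R := algebraicClosure ℚ ℂ) q
    rwa [Set.finrank, Fintype.card_fin] at h2

end Pool.Agent.P8H7.RS
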