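import Pool.Agent.P8H63.RS.Stm

/-!
# Project RS, package TRF: transfer along a field embedding; rank factorisation
-/

set_option autoImplicit false

namespace Pool.Agent.P8H7.RS

open Module
open Pool.Agent.P8H63.RS

/-- rank factorisation with one-sided inverses -/
theorem fact {E : Type} [Field E] {n s : ℕ} (A : Matrix (Fin n) (Fin s) E) {ρ : ℕ}
    (hρ : A.rank = ρ) : ∃ (X : Matrix (Fin n) (Fin ρ) E) (Y : Matrix (Fin ρ) (Fin s) E)
      (X' : Matrix (Fin ρ) (Fin n) E) (Y' : Matrix (Fin s) (Fin ρ) E),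
      A = X * Y ∧ X' * X = 1 ∧ Y * Y' = 1 := by
  classical
  obtain ⟨W, hW⟩ : ∃ W : Submodule E (Fin n → E), W = LinearMap.range A.mulVecLin := ⟨_, rfl⟩
  have hd : finrank E W = ρ := by rw [hW, ← hρ]; rfl
  let b : Basis (Fin ρ) E W := Module.finBasisOfFinrankEq E W hd
  have hcol : ∀ t, (fun i => A i t) ∈ W := fun t => by
    rw [hW]
    refine ⟨Pi.single t 1, ?_⟩
    rw [Matrix.mulVecLin_apply, Matrix.mulVec_single_one]
    rfl
  let X : Matrix (Fin n) (Fin ρ) E := fun i τ => (b τ : Fin n → E) i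
  let Y : Matrix (Fin ρ) (Fin s) E := fun τ t => b.repr ⟨fun i => A i t, hcol t⟩ τ
  have hXc : ∀ c : Fin ρ → E, X.mulVecLin c = ((∑ τ, c τ • b τ : W) : Fin n → E) := by
    intro c
    funext i
    rw [Matrix.mulVecLin_apply, Matrix.mulVec, dotProduct, Submodule.coe_sum, Finset.sum_apply]
    refine Finset.sum_congr rfl fun τ _ => ?_
    rw [Submodule.coe_smul, Pi.smul_apply, smul_eq_mul, mul_comm]
  have hinj : ∀ c : Fin ρ → E, X.mulVecLin c = 0 → c = 0 := by
    intro c hc
    rw [hXc, ZeroMemClass.coe_eq_zero] at hc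
    funext τ
    exact Fintype.linearIndependent_iff.1 b.linearIndependent c hc τ
  have hA : A = X * Y := by
    ext i t
    have h1 := congrArg (fun z : W => (z : Fin n → E) i) (b.sum_repr ⟨fun i => A i t, hcol t⟩)
    simp only [Submodule.coe_sum, Finset.sum_apply, Submodule.coe_smul, Pi.smul_apply,
      smul_eq_mul] at h1
    rw [Matrix.mul_apply, ← h1]
    exact Finset.sum_congr rfl fun τ _ => mul_comm _ _
  have hk : LinearMap.ker X.mulVecLin = ⊥ := by
    rw [LinearMap.ker_eq_bot']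
    exact hinj
  have hr : LinearMap.range Y.mulVecLin = ⊤ := by
    rw [LinearMap.range_eq_top]
    intro c
    have h1 : X.mulVecLin c ∈ W := by
      rw [hXc]
      exact Submodule.coe_mem _
    rw [hW] at h1
    obtain ⟨v, hv⟩ := h1
    refine ⟨v, ?_⟩
    have h2 : X.mulVecLin (Y.mulVecLin v - c) = 0 := by
      rw [map_sub, ← hv, sub_eq_zero]
      conv_rhs => rw [hA]
      rw [Matrix.mulVecLin_mul]
      rfl
    exact sub_eq_zero.1 (hinj _ h2)
  obtain ⟨g, hg⟩ := LinearMap.exists_leftInverse_of_injective X.mulVecLin hk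
  obtain ⟨g', hg'⟩ := LinearMap.exists_rightInverse_of_surjective Y.mulVecLin hr
  refine ⟨X, Y, LinearMap.toMatrix' g, LinearMap.toMatrix' g', hA, ?_, ?_⟩
  · have h1 := congrArg LinearMap.toMatrix' hg
    rw [LinearMap.toMatrix'_comp, LinearMap.toMatrix'_id] at h1
    rw [← h1]
    congr 1
    rw [← Matrix.toLin'_apply']
    exact (LinearMap.toMatrix'_toLin' X).symm
  · have h1 := congrArg LinearMap.toMatrix' hg'
    rw [LinearMap.toMatrix'_comp, LinearMap.toMatrix'_id] at h1
    rw [← h1]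
    congr 1
    rw [← Matrix.toLin'_apply']
    exact (LinearMap.toMatrix'_toLin' Y).symm

/-- the rank does not change under a field embedding -/
theorem rank_map {E F : Type} [Field E] [Field F] (Θ : E →+* F) {n s : ℕ}
    (A : Matrix (Fin n) (Fin s) E) : (A.map Θ).rank = A.rank := by
  obtain ⟨ρ, hρ⟩ : ∃ ρ, A.rank = ρ := ⟨_, rfl⟩
  obtain ⟨X, Y, X', Y', hA, hX, hY⟩ := fact A hρ
  rw [hρ]
  apply le_antisymm
  · have h1 : A.map Θ = X.map Θ * Y.map Θ := by
      conv_lhs => rw [hA]
      exact Matrix.map_mul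
    rw [h1]
    refine (Matrix.rank_mul_le_left _ _).trans ?_
    exact Matrix.rank_le_width _
  · have h1 : X'.map Θ * (A.map Θ * Y'.map Θ) = 1 := by
      rw [← Matrix.map_mul, ← Matrix.map_mul]
      have h2 : X' * (A * Y') = 1 := by
        conv_lhs => rw [hA]
        rw [Matrix.mul_assoc, hY, Matrix.mul_one, hX]
      rw [h2]
      exact Matrix.map_one _ (map_zero Θ) (map_one Θ)
    have h3 : (1 : Matrix (Fin ρ) (Fin ρ) F).rank = ρ := by
      rw [Matrix.rank_one, Fintype.card_fin]
    calc ρ = (1 : Matrix (Fin ρ) (Fin ρ) F).rank := h3.symm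
      _ = (X'.map Θ * (A.map Θ * Y'.map Θ)).rank := by rw [h1]
      _ ≤ (A.map Θ * Y'.map Θ).rank := Matrix.rank_mul_le_right _ _
      _ ≤ (A.map Θ).rank := Matrix.rank_mul_le_left _ _

theorem exists_preimage {E : Type} [Field E] [CharZero E] [IsAlgClosed E] (Θ : E →+* ℂ) {c : ℂ}
    (hc : IsAlgebraic ℚ c) : ∃ c' : E, IsAlgebraic ℚ c' ∧ Θ c' = c := by
  have h1 : (minpoly ℚ c).aeval c = 0 := minpoly.aeval ℚ c
  have h0 : minpoly ℚ c ≠ 0 := minpoly.ne_zero hc.isIntegral
  have h2 : ((minpoly ℚ c).map (algebraMap ℚ E)).Splits := IsAlgClosed.splits _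
  have h3 : (minpoly ℚ c).map (algebraMap ℚ E) ≠ 0 :=
    (Polynomial.map_ne_zero_iff (algebraMap ℚ E).injective).mpr h0
  have h4 : (((minpoly ℚ c).map (algebraMap ℚ E)).map Θ).IsRoot c := by
    rw [Polynomial.IsRoot.def, Polynomial.map_map, Polynomial.eval_map]
    have h5 : Θ.comp (algebraMap ℚ E) = algebraMap ℚ ℂ := RingHom.ext_rat _ _
    rw [h5]
    exact h1
  obtain ⟨c', hc'⟩ := h2.mem_range_of_isRoot h3 h4
  refine ⟨c', ?_, hc'⟩
  refine ⟨minpoly ℚ c, h0, ?_⟩
  apply Θ.injective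
  rw [map_zero]
  have h6 : Θ ((Polynomial.aeval c') (minpoly ℚ c)) =
      Polynomial.aeval (RingHom.toRatAlgHom Θ c') (minpoly ℚ c) :=
    (Polynomial.aeval_algHom_apply (RingHom.toRatAlgHom Θ) c' (minpoly ℚ c)).symm
  rw [h6]
  have h7 : RingHom.toRatAlgHom Θ c' = c := hc'
  rw [h7]
  exact h1

/-- **TRF** -/
theorem trf : S_TRF := by
  classical
  intro E _ _ _ Θ 𝓛
  have hΘ : ∀ x : E, (RingHom.toRatAlgHom Θ : E →ₐ[ℚ] ℂ).toLinearMap x = Θ x := fun x => rfl
  constructor
  · intro hF n s M hM A hA hr hlt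
    have hrank : (M.map Θ * A.map Θ).rank = (M * A).rank := by
      rw [← Matrix.map_mul, rank_map]
    -- the rational span of the rows
    let L : (Fin s → E) →ₗ[ℚ] (Fin s → ℂ) :=
      ((RingHom.toRatAlgHom Θ : E →ₐ[ℚ] ℂ).toLinearMap).compLeft (Fin s)
    have hL : Function.Injective L := by
      intro x y h
      funext i
      exact Θ.injective (congrFun h i)
    have hspan : finrank ℚ (Submodule.span ℚ (Set.range (fun i => (A.map Θ) i))) =
        finrank ℚ (Submodule.span ℚ (Set.range (fun i => A i))) := by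
      have h1 : Set.range (fun i => (A.map Θ) i) = L '' Set.range (fun i => A i) := by
        rw [← Set.range_comp]
        rfl
      rw [h1, Submodule.span_image]
      exact (Submodule.equivMapOfInjective L hL _).finrank_eq.symm
    obtain ⟨w, v, hw, hv, h0⟩ := hF n s (M.map Θ) (fun i j => ⟨M i j, hM i j, rfl⟩) (A.map Θ)
      (fun i j => (hA i j).algHom (RingHom.toRatAlgHom Θ)) (by rw [rank_map, hr]) (by
        rw [hrank, hspan]
        exact hlt)
    refine ⟨w, v, hw, hv, ?_⟩
    apply Θ.injective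
    rw [map_zero, ← h0, map_sum]
    refine Finset.sum_congr rfl fun i _ => ?_
    rw [map_sum]
    refine Finset.sum_congr rfl fun j _ => ?_
    rw [map_mul, map_mul, map_ratCast, map_ratCast]
    rfl
  · intro hB d b hb hli
    choose b' hb' hbb using hb
    have hbb' : ∀ k, Θ (b' k) = b k := hbb
    have hli' : LinearIndependent ℚ b' := by
      refine LinearIndependent.of_comp (RingHom.toRatAlgHom Θ : E →ₐ[ℚ] ℂ).toLinearMap ?_
      have h1 : (RingHom.toRatAlgHom Θ : E →ₐ[ℚ] ℂ).toLinearMap ∘ b' = b := by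
        funext k
        exact hbb' k
      rw [h1]
      exact hli
    have h1 := hB d b' hb' hli'
    rw [Fintype.linearIndependent_iff] at h1 ⊢
    intro c hc k
    choose π hπ1 hπ2 using fun k => exists_preimage Θ (mem_algebraicClosure_iff.1 (c k).2)
    have h2 := h1 (fun k => (⟨π k, mem_algebraicClosure_iff.mpr (hπ1 k)⟩ : algebraicClosure ℚ E))
      (by
        apply Θ.injective
        rw [map_zero, ← hc, map_sum]
        refine Finset.sum_congr rfl fun i _ => ?_
        rw [Algebra.smul_def, map_mul, Algebra.smul_def, hbb' i]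
        congr 1
        exact hπ2 i) k
    have h3 : π k = 0 := congrArg (fun z : algebraicClosure ℚ E => (z : E)) h2
    have h4 := hπ2 k
    rw [h3, map_zero] at h4
    exact Subtype.ext h4.symm

end Pool.Agent.P8H7.RS
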